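import Mathlib
import Pool.Agent.N741.HB.Stm4
import Pool.Agent.Y902.GN.Cov

/-!
# Linear sections for all number fields of bounded degree: few keys

Project HC (helper741), proof by helper814; adapted from `Pool.Agent.N741.HB.CovZ`.
-/

set_option autoImplicit false

namespace Pool.Agent.N814.HC

open Filter Pool.Agent.Y902.GN Pool.Agent.N741.HB Pool.Agent.N741.HC

theorem min_blocksC {ι : Type*} [DecidableEq ι] (τ : ι → ℂ) : ∀ (k : ℕ) (I : Finset ι),
    I.card ≤ k → ∑ i ∈ I, τ i = 0 → ∃ P : Finset (Finset ι),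
      (∀ B ∈ P, B.Nonempty ∧ ∑ i ∈ B, τ i = 0 ∧ ∀ K ⊆ B, K.Nonempty → K ≠ B →
        ∑ i ∈ K, τ i ≠ 0) ∧ P.biUnion id = I ∧ Set.PairwiseDisjoint (P : Set (Finset ι)) id := by
  classical
  intro k
  induction k with
  | zero =>
    intro I hI _
    refine ⟨∅, fun B hB => absurd hB (Finset.notMem_empty B), ?_, by simp⟩
    rw [Finset.card_eq_zero.1 (by omega : I.card = 0)]
    rfl
  | succ k ih =>
    intro I hI h0
    rcases Finset.eq_empty_or_nonempty I with hne | hne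
    · subst hne
      exact ⟨∅, fun B hB => absurd hB (Finset.notMem_empty B), rfl, by simp⟩
    · have hex : (I.powerset.filter fun B => B.Nonempty ∧ ∑ i ∈ B, τ i = 0).Nonempty :=
        ⟨I, Finset.mem_filter.2 ⟨Finset.mem_powerset.2 subset_rfl, hne, h0⟩⟩
      obtain ⟨B, hB, hmin⟩ := Finset.exists_min_image _ (fun B : Finset ι => B.card) hex
      obtain ⟨hB1, hB2, hB3⟩ := Finset.mem_filter.1 hB
      rw [Finset.mem_powerset] at hB1
      have h1 : ∑ i ∈ I \ B, τ i = 0 := by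
        have := Finset.sum_sdiff (f := τ) hB1
        rw [hB3, add_zero, h0] at this
        exact this
      have h2 : (I \ B).card ≤ k := by
        rw [Finset.card_sdiff_of_subset hB1]
        have := Finset.card_pos.2 hB2
        omega
      obtain ⟨P, hP1, hP2, hP3⟩ := ih _ h2 h1
      have hPs : ∀ B' ∈ P, B' ⊆ I \ B := fun B' hB' => by
        rw [← hP2]
        exact Finset.subset_biUnion_of_mem id hB'
      refine ⟨insert B P, ?_, ?_, ?_⟩
      · intro B' hB'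
        rcases Finset.mem_insert.1 hB' with rfl | hB'
        · refine ⟨hB2, hB3, fun K hK hK1 hK2 hK3 => ?_⟩
          have h3 := hmin K (Finset.mem_filter.2 ⟨Finset.mem_powerset.2 (hK.trans hB1), hK1, hK3⟩)
          exact hK2 (Finset.eq_of_subset_of_card_le hK h3)
        · exact hP1 B' hB'
      · rw [Finset.biUnion_insert, hP2]
        exact Finset.union_sdiff_of_subset hB1
      · rw [Finset.coe_insert]
        refine hP3.insert fun B' hB' _ => ?_
        exact Finset.disjoint_of_subset_right (hPs B' hB') Finset.disjoint_sdiff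

/-- the terms -/
def tC {m : ℕ} (u : Fin m → ℤ) (d : ℕ) (s b : Fin m → ℂ) (i : Fin m) : ℂ :=
  (u i : ℂ) * (s i * b i ^ d)

/-- `Z` is a set of nonzero terms without vanishing subsums and with the same sum as all terms,
`P` is a partition of the other nonzero terms into minimal vanishing sums -/
structure PatC {m : ℕ} (τ : Fin m → ℂ) (Z : Finset (Fin m)) (P : Finset (Finset (Fin m))) :
    Prop where
  blk : ∀ B ∈ P, B.Nonempty ∧ ∑ i ∈ B, τ i = 0 ∧
    ∀ K ⊆ B, K.Nonempty → K ≠ B → ∑ i ∈ K, τ i ≠ 0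
  zsum : ∑ i ∈ Z, τ i = ∑ i, τ i
  znv : ∀ K ⊆ Z, K.Nonempty → ∑ i ∈ K, τ i ≠ 0
  un : ∀ i, (i ∈ Z ∨ i ∈ P.biUnion id) ↔ τ i ≠ 0
  dis : Set.PairwiseDisjoint (P : Set (Finset (Fin m))) id
  disZ : Disjoint Z (P.biUnion id)

theorem PatC.ex {m : ℕ} (τ : Fin m → ℂ) : ∃ Z P, PatC τ Z P := by
  classical
  set I : Finset (Fin m) := Finset.univ.filter fun i => τ i ≠ 0 with hI
  have hIs : ∑ i ∈ I, τ i = ∑ i, τ i := by
    rw [hI, Finset.sum_filter_ne_zero]
  have hex : (I.powerset.filter fun B => ∑ i ∈ B, τ i = ∑ i, τ i).Nonempty :=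
    ⟨I, Finset.mem_filter.2 ⟨Finset.mem_powerset.2 subset_rfl, hIs⟩⟩
  obtain ⟨Z, hZ, hmin⟩ := Finset.exists_min_image _ (fun B : Finset (Fin m) => B.card) hex
  obtain ⟨hZ1, hZ2⟩ := Finset.mem_filter.1 hZ
  rw [Finset.mem_powerset] at hZ1
  have h1 : ∑ i ∈ I \ Z, τ i = 0 := by
    have := Finset.sum_sdiff (f := τ) hZ1
    rw [hIs, hZ2] at this
    linear_combination this
  obtain ⟨P, hP1, hP2, hP3⟩ := min_blocksC τ _ (I \ Z) le_rfl h1
  refine ⟨Z, P, ?_, ?_, ?_, ?_, hP3, ?_⟩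
  · exact hP1
  · exact hZ2
  · intro K hK hKn h0
    have h2 : ∑ i ∈ Z \ K, τ i = ∑ i, τ i := by
      have := Finset.sum_sdiff (f := τ) hK
      rw [← hZ2, ← this, h0, add_zero]
    have h3 := hmin (Z \ K) (Finset.mem_filter.2 ⟨Finset.mem_powerset.2
      (Finset.sdiff_subset.trans hZ1), h2⟩)
    rw [Finset.card_sdiff_of_subset hK] at h3
    have h4 := Finset.card_pos.2 hKn
    have h5 := Finset.card_le_card hK
    omega
  · intro i
    rw [hP2, Finset.mem_sdiff]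
    have : i ∈ I ↔ τ i ≠ 0 := by simp [hI]
    constructor
    · rintro (h2 | h2)
      · exact this.1 (hZ1 h2)
      · exact this.1 h2.1
    · intro h2
      by_cases h3 : i ∈ Z
      · exact Or.inl h3
      · exact Or.inr ⟨this.2 h2, h3⟩
  · rw [hP2]
    exact Finset.disjoint_sdiff

open Classical in
/-- the ratios of the linear forms in the blocks -/
noncomputable def ratiosC {m : ℕ} (Q : Finset (Finset (Fin m))) (b : Fin m → ℂ) :
    Fin m → Fin m → ℂ := fun i i' =>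
  if ∃ B ∈ Q, i ∈ B ∧ i' ∈ B then b i / b i' else 0

/-- the keys of one equation -/
abbrev Key1 (m : ℕ) : Type := (Finset (Fin m) × Finset (Finset (Fin m))) × (Fin m → Fin m → ℂ)

/-- the data of a solution with a given key (one equation) -/
structure SolC (κ C Y m U d r : ℕ) (u : Fin m → ℤ) (v : ℤ) (key : Key1 m) (b s : Fin m → ℂ) :
    Prop where
  s0 : ∀ i, s i ≠ 0
  pat : PatC (tC u d s b) key.1.1 key.1.2
  rat : key.2 = ratiosC (insert key.1.1 key.1.2) b
  van : v = 0 → ∑ i, tC u d s b i = 0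
  cod : ∃ (Q : Code κ C Y m b s) (e : ℕ) (ζ : Fin Q.k → ℤ), 1 ≤ e ∧ e ≤ κ ∧
    (∀ l, |ζ l| ≤ ((U : ℤ) * ((Y : ℤ) + 2)) ^ (C * (d + r))) ∧
    ((Q.D : ℂ) ^ r * vl Q.α Q.v0 ^ (r - 1) * ∑ i, ((v ^ (r - 1) * u i : ℤ) : ℂ) *
      (vl Q.α (Q.vs i) * vl Q.α (Q.vb i) ^ d)) ^ e = vl Q.α ζ ^ r

/-- restriction to a subset of the indices -/
def resCode {κ C Y m m' : ℕ} {b s : Fin m → ℂ} (Q : Code κ C Y m b s) (e : Fin m' → Fin m) :
    Code κ C Y m' (fun p => b (e p)) (fun p => s (e p)) where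
  k := Q.k
  α := Q.α
  lam := Q.lam
  mu := Q.mu
  D := Q.D
  mm := Q.mm
  vb := fun p => Q.vb (e p)
  vs := fun p => Q.vs (e p)
  vp := fun p => Q.vp (e p)
  v0 := Q.v0
  hk1 := Q.hk1
  hk := Q.hk
  lam0 := Q.lam0
  mu0 := Q.mu0
  D0 := Q.D0
  Dbd := Q.Dbd
  mbd := Q.mbd
  vbbd := fun p => Q.vbbd (e p)
  vsbd := fun p => Q.vsbd (e p)
  vpbd := fun p => Q.vpbd (e p)
  v0bd := Q.v0bd
  root := Q.root
  lin := Q.lin
  evb := fun p => Q.evb (e p)
  evs := fun p => Q.evs (e p)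
  evp := fun p => Q.evp (e p)
  ev0 := Q.ev0

theorem code_sum {κ C Y m : ℕ} {b s : Fin m → ℂ} (Q : Code κ C Y m b s) (u : Fin m → ℤ) (v : ℤ)
    (r d : ℕ) (I : Finset (Fin m)) :
    ∑ i ∈ I, ((v ^ (r - 1) * u i : ℤ) : ℂ) * (vl Q.α (Q.vs i) * vl Q.α (Q.vb i) ^ d) =
      (v : ℂ) ^ (r - 1) * Q.mu * Q.lam ^ d * ∑ i ∈ I, tC u d s b i := by
  rw [Finset.mul_sum]
  refine Finset.sum_congr rfl fun i _ => ?_
  rw [Q.evb, Q.evs, tC]
  push_cast
  rw [mul_pow]
  ring

/-- **There are few keys.** -/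
theorem covkC (hcP : S_cstP) (hc0 : S_cst0) (m q κ C : ℕ) (ε : ℝ) (hε : 0 < ε) :
    ∃ (R : ℕ) (δ : ℝ), 0 < δ ∧
    ∀ (Y : ℕ), 1 ≤ Y → ∀ (d r : Fin q → ℕ), (∀ k, R ≤ d k ∧ (d k : ℝ) ≤ (Y : ℝ) ^ δ) →
      (∀ k, R ≤ r k ∧ (r k : ℝ) ≤ (Y : ℝ) ^ δ) →
      ∀ U : ℕ, (U : ℝ) ≤ Real.exp ((Y : ℝ) ^ δ) → ∀ (u : Fin q → Fin m → ℤ) (v : Fin q → ℤ),
      (∀ k i, |u k i| ≤ (U : ℤ)) → (∀ k, |v k| ≤ (U : ℤ)) →
      ∀ (T : Finset (Fin q → Key1 m)),
        (∀ key ∈ T, ∃ (b s : Fin q → Fin m → ℂ), ∀ k,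
          SolC κ C Y m U (d k) (r k) (u k) (v k) (key k) (b k) (s k)) →
      (T.card : ℝ) ≤ (Y : ℝ) ^ ε := by
  classical
  rcases Nat.eq_zero_or_pos q with hq | hq
  · subst hq
    refine ⟨0, 1, one_pos, fun Y hY _ _ _ _ _ _ _ _ _ _ T _ => ?_⟩
    have h1 : T.card ≤ 1 := Finset.card_le_one.2 fun a _ b _ => funext fun k => k.elim0
    calc (T.card : ℝ) ≤ 1 := by exact_mod_cast h1
      _ ≤ (Y : ℝ) ^ ε := Real.one_le_rpow (by exact_mod_cast hY) hε.le
  by_contra hcon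
  push Not at hcon
  have hseq := fun ν : ℕ => hcon (ν + 1) (1 / ((ν : ℝ) + 1)) (by positivity)
  choose Y hY1 d r hd hrr U hU u v hu hv T hT hc using hseq
  have hY1' : ∀ ν, (1 : ℝ) ≤ (Y ν : ℝ) := fun ν => by exact_mod_cast hY1 ν
  have hrpow : ∀ ν, (Y ν : ℝ) ^ (1 / ((ν : ℝ) + 1)) ≤ (Y ν : ℝ) := by
    intro ν
    calc (Y ν : ℝ) ^ (1 / ((ν : ℝ) + 1)) ≤ (Y ν : ℝ) ^ (1 : ℝ) := by
          apply Real.rpow_le_rpow_of_exponent_le (hY1' ν)
          rw [div_le_one (by positivity)]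
          have : (0 : ℝ) ≤ (ν : ℝ) := Nat.cast_nonneg _
          linarith
      _ = (Y ν : ℝ) := Real.rpow_one _
  have hdY : ∀ ν k, d ν k ≤ Y ν := fun ν k => by
    exact_mod_cast ((hd ν k).2.trans (hrpow ν) : (d ν k : ℝ) ≤ (Y ν : ℝ))
  have hY : ∀ m : ℕ, ∀ᶠ ν in (Uf : Filter ℕ), m ≤ Y ν := by
    intro m
    filter_upwards [ev_ge m] with ν hν
    have := (hd ν ⟨0, hq⟩).1
    have := hdY ν ⟨0, hq⟩
    omega
  have hbig : Big Y T := big_of_card hε (hY 2) (Filter.Eventually.of_forall hc)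
  -- the patterns
  obtain ⟨T0, a1, a2, a3⟩ := hbig.fiber (fun _ κ => fun k => (κ k).1) (fun _ => Finset.univ)
    (Filter.Eventually.of_forall fun ν t _ => Finset.mem_univ _) (Few.const hY _)
  obtain ⟨ZP, hZP⟩ : ∃ ZP : Fin q → Finset (Fin m) × Finset (Finset (Fin m)),
      ∀ᶠ ν in (Uf : Filter ℕ), ∀ κ ∈ T0 ν, (fun k => (κ k).1) = ZP := by
    apply ev_exists
    filter_upwards [a2.nonempty, a3] with ν h1 h2
    obtain ⟨κ0, hκ0⟩ := h1
    exact ⟨fun k => (κ0 k).1, fun κ hκ => h2 κ hκ κ0 hκ0⟩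
  choose! b s hs' using hT
  have hs : ∀ᶠ ν in (Uf : Filter ℕ), ∀ key ∈ T0 ν, ∀ k,
      SolC κ C (Y ν) m (U ν) (d ν k) (r ν k) (u ν k) (v ν k) (key k) (b ν key k) (s ν key k) ∧
      key k = (ZP k, ratiosC (insert (ZP k).1 (ZP k).2) (b ν key k)) ∧
      PatC (tC (u ν k) (d ν k) (s ν key k) (b ν key k)) (ZP k).1 (ZP k).2 := by
    filter_upwards [a1, hZP] with ν h1 h2 key hx k
    have h5 := hs' ν key (h1 hx) k
    have h8 : (key k).1 = ZP k := congrFun (h2 _ hx) k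
    refine ⟨h5, Prod.ext h8 ?_, ?_⟩
    · show (key k).2 = _
      rw [← h8]
      exact h5.rat
    · rw [← h8]
      exact h5.pat
  -- bounds
  have few_of : ∀ f : ℕ → ℕ, (∀ ν, (f ν : ℝ) ≤ (Y ν : ℝ) ^ (1 / ((ν : ℝ) + 1))) → Few Y f := by
    intro f hf
    refine (few_rpow hY 1).mono (Filter.Eventually.of_forall fun ν => ?_)
    have hdν : f ν ≤ ⌊((1 : ℕ) : ℝ) * (Y ν : ℝ) ^ (1 / ((ν : ℝ) + 1))⌋₊ := by
      apply Nat.le_floor
      rw [Nat.cast_one, one_mul]
      exact hf ν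
    omega
  have hdf : ∀ k, Few Y (fun ν => d ν k) := fun k => few_of _ fun ν => (hd ν k).2
  have hrf : ∀ k, Few Y (fun ν => r ν k) := fun k => few_of _ fun ν => (hrr ν k).2
  have hdl : ∀ k, ∀ m : ℕ, ∀ᶠ ν in (Uf : Filter ℕ), m ≤ d ν k := fun k m => by
    filter_upwards [ev_ge m] with ν hν
    have := (hd ν k).1
    omega
  have hrl : ∀ k, ∀ m : ℕ, ∀ᶠ ν in (Uf : Filter ℕ), m ≤ r ν k := fun k m => by
    filter_upwards [ev_ge m] with ν hν
    have := (hrr ν k).1
    omega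
  obtain ⟨w0, hw0⟩ : ∃ w0 : ℕ → ℕ, ∀ ν,
      w0 ν = ⌊((2 : ℕ) : ℝ) * (Y ν : ℝ) ^ (1 / ((ν : ℝ) + 1))⌋₊ + 1 := ⟨_, fun _ => rfl⟩
  have hw0F : Few Y w0 := by
    have := few_rpow hY 2
    have e : w0 = fun ν => ⌊((2 : ℕ) : ℝ) * (Y ν : ℝ) ^ (1 / ((ν : ℝ) + 1))⌋₊ + 1 := funext hw0
    rw [e]
    exact this
  have hUb : ∀ ν, (U ν : ℤ) ≤ 2 ^ w0 ν := by
    intro ν
    have h5 := (hU ν).trans (exp_le_two_pow (by positivity))
    rw [← hw0] at h5
    exact_mod_cast h5
  obtain ⟨Lg, hLg⟩ : ∃ Lg : ℕ → ℕ, ∀ ν, Lg ν = Nat.log 2 (Y ν + 2) + 1 := ⟨_, fun _ => rfl⟩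
  have hLF : Few Y Lg := by
    have e : Lg = fun ν => Nat.log 2 (Y ν + 2) + 1 := funext hLg
    rw [e]
    exact few_log hY
  have hYb : ∀ ν, (Y ν : ℤ) + 2 ≤ 2 ^ Lg ν := by
    intro ν
    have h1 : Y ν + 2 ≤ 2 ^ Lg ν := by
      rw [hLg]
      exact (Nat.lt_pow_succ_log_self (by norm_num) _).le
    exact_mod_cast h1
  -- the ratios are constant
  obtain ⟨A1, g1, g2, g3⟩ := Big.const_all (Y := Y)
    ((Finset.univ : Finset (Fin q × Finset (Fin m) × Fin m × Fin m)).filter fun p =>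
      p.2.1 ∈ insert (ZP p.1).1 (ZP p.1).2 ∧ p.2.2.1 ∈ p.2.1 ∧ p.2.2.2 ∈ p.2.1)
    (fun p ν key => b ν key p.1 p.2.2.1 / b ν key p.1 p.2.2.2) a2 (by
      rintro ⟨k, B, j, j'⟩ hp A' hA' hbig'
      obtain ⟨-, hB, hj1, hj2⟩ := Finset.mem_filter.1 hp
      simp only at hB hj1 hj2
      have hτ : ∀ᶠ ν in (Uf : Filter ℕ), ∀ x ∈ A' ν, ∀ i ∈ B,
          tC (u ν k) (d ν k) (s ν x k) (b ν x k) i ≠ 0 := by
        filter_upwards [hA', hs] with ν h1 h2 x hx i hi
        refine ((h2 x (h1 hx) k).2.2.un i).1 ?_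
        rcases Finset.mem_insert.1 hB with h3 | h3
        · left; rw [← h3]; exact hi
        · right; exact Finset.mem_biUnion.2 ⟨B, h3, hi⟩
      have hbb : ∀ᶠ ν in (Uf : Filter ℕ), ∀ x ∈ A' ν, ∀ i ∈ B, b ν x k i ≠ 0 := by
        filter_upwards [hτ, hdl k 1] with ν k3 k4 x hx i hi h0
        refine k3 x hx i hi ?_
        rw [tC, h0, zero_pow (by omega), mul_zero, mul_zero]
      have hun : ∀ᶠ ν in (Uf : Filter ℕ), ∀ i ∈ B, u ν k i ≠ 0 := by
        filter_upwards [hτ, hbig'.nonempty] with ν k1 k2 i hi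
        obtain ⟨x, hx⟩ := k2
        have := left_ne_zero_of_mul (k1 x hx i hi)
        exact_mod_cast this
      let e : Fin B.card ≃ B := B.equivFin.symm
      have hsum : ∀ f : Fin m → ℂ, ∑ p : Fin B.card, f (e p).1 = ∑ i ∈ B, f i := by
        intro f
        rw [Equiv.sum_comp e (fun i : B => f i.1)]
        exact Finset.sum_coe_sort B f
      have hJ : ∀ (J : Finset (Fin B.card)) (f : Fin m → ℂ),
          ∑ p ∈ J, f (e p).1 = ∑ i ∈ J.map (e.toEmbedding.trans (Function.Embedding.subtype _)),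
            f i := by
        intro J f
        rw [Finset.sum_map]
        rfl
      have hJB : ∀ J : Finset (Fin B.card),
          J.map (e.toEmbedding.trans (Function.Embedding.subtype _)) ⊆ B := by
        intro J i hi
        obtain ⟨p, _, rfl⟩ := Finset.mem_map.1 hi
        exact (e p).2
      have hfin : ∀ A'' : ℕ → Finset (Fin q → Key1 m),
          (∀ᶠ ν in (Uf : Filter ℕ), A'' ν ⊆ A' ν) →
          (∀ᶠ ν in (Uf : Filter ℕ), ∀ x ∈ A'' ν, ∀ x' ∈ A'' ν,
            b ν x k j * b ν x' k j' = b ν x' k j * b ν x k j') →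
          ∀ᶠ ν in (Uf : Filter ℕ), ∀ x ∈ A'' ν, ∀ x' ∈ A'' ν,
            b ν x k j / b ν x k j' = b ν x' k j / b ν x' k j' := by
        intro A'' h1 h3
        filter_upwards [h3, h1, hbb] with ν k1 k2 k3 x hx x' hx'
        rw [div_eq_div_iff (k3 x (k2 hx) j' hj2) (k3 x' (k2 hx') j' hj2)]
        exact k1 x hx x' hx'
      have hex : ∃ A'' : ℕ → Finset (Fin q → Key1 m),
          (∀ᶠ ν in (Uf : Filter ℕ), A'' ν ⊆ A' ν) ∧ Big Y A'' ∧
          ∀ i i' : Fin B.card, ∀ᶠ ν in (Uf : Filter ℕ), ∀ x ∈ A'' ν, ∀ x' ∈ A'' ν,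
            b ν x k (e i).1 * b ν x' k (e i').1 = b ν x' k (e i).1 * b ν x k (e i').1 := by
        rcases Finset.mem_insert.1 hB with hBZ | hBP
        · -- the block with the power
          have hvne : ∀ᶠ ν in (Uf : Filter ℕ), v ν k ≠ 0 := by
            filter_upwards [hbig'.nonempty, hA', hs] with ν k1 k2 k3 hcon
            obtain ⟨x, hx⟩ := k1
            have h4 := k3 x (k2 hx) k
            refine h4.2.2.znv (ZP k).1 subset_rfl (hBZ ▸ ⟨j, hj1⟩) ?_
            rw [h4.2.2.zsum, h4.1.van hcon]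
          obtain ⟨W, hW⟩ : ∃ W : ℕ → ℕ, ∀ ν, W ν = w0 ν * r ν k + w0 ν +
              (w0 ν + Lg ν) * (C * (d ν k + r ν k)) := ⟨_, fun _ => rfl⟩
          have hWF : Few Y W := by
            have e1 : W = fun ν => w0 ν * r ν k + w0 ν +
              (w0 ν + Lg ν) * (C * (d ν k + r ν k)) := funext hW
            rw [e1]
            exact ((hw0F.mul (hrf k)).add hY hw0F).add hY ((hw0F.add hY hLF).mul
              ((Few.const hY C).mul ((hdf k).add hY (hrf k))))
          refine hcP Y hY (Fin q → Key1 m) A' hbig' κ C B.card (fun ν x p => b ν x k (e p).1)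
            (fun ν x p => s ν x k (e p).1) (fun ν => d ν k) W (fun ν => r ν k)
            (fun ν p => v ν k ^ (r ν k - 1) * u ν k (e p).1) (hdf k) hWF (hrf k) (hdl k) (hrl k)
            ?_ ?_
          · filter_upwards [hun, hvne] with ν k1 k2 p
            refine ⟨mul_ne_zero (pow_ne_zero _ k2) (k1 _ (e p).2), ?_⟩
            have h1 := (hu ν k (e p).1).trans (hUb ν)
            have h2 := (hv ν k).trans (hUb ν)
            rw [abs_mul, abs_pow]
            calc |v ν k| ^ (r ν k - 1) * |u ν k (e p).1| ≤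
                (2 ^ w0 ν) ^ (r ν k - 1) * 2 ^ w0 ν := by gcongr
              _ = 2 ^ (w0 ν * (r ν k - 1) + w0 ν) := by rw [← pow_mul, ← pow_add]
              _ ≤ 2 ^ W ν := by
                refine pow_le_pow_right₀ (by norm_num) ?_
                rw [hW]
                have : w0 ν * (r ν k - 1) ≤ w0 ν * r ν k := Nat.mul_le_mul_left _ (by omega)
                omega
          · filter_upwards [hA', hs, hbb, hvne] with ν k1 k2 k3 k4 x hx
            have h4 := k2 x (k1 hx) k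
            refine ⟨fun p => ⟨k3 x hx _ (e p).2, h4.1.s0 _⟩, fun J hJn => ?_, ?_⟩
            · have h5 : ∑ p ∈ J, ((v ν k ^ (r ν k - 1) * u ν k (e p).1 : ℤ) : ℂ) *
                  (s ν x k (e p).1 * b ν x k (e p).1 ^ d ν k) = (v ν k : ℂ) ^ (r ν k - 1) *
                  ∑ p ∈ J, tC (u ν k) (d ν k) (s ν x k) (b ν x k) (e p).1 := by
                rw [Finset.mul_sum]
                refine Finset.sum_congr rfl fun p _ => ?_
                rw [tC]
                push_cast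
                ring
              rw [h5, hJ J (tC (u ν k) (d ν k) (s ν x k) (b ν x k))]
              refine mul_ne_zero (pow_ne_zero _ (by exact_mod_cast k4)) ?_
              exact h4.2.2.znv _ (hBZ ▸ hJB J) (hJn.map)
            · obtain ⟨Q, e', ζ, q1, q2, q3, q4⟩ := h4.1.cod
              refine ⟨resCode Q (fun p => (e p).1), e', ζ, q1, q2, fun l => ?_, ?_⟩
              · refine (q3 l).trans ?_
                calc ((U ν : ℤ) * ((Y ν : ℤ) + 2)) ^ (C * (d ν k + r ν k)) ≤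
                    (2 ^ w0 ν * 2 ^ Lg ν) ^ (C * (d ν k + r ν k)) := by
                      have := hUb ν
                      have := hYb ν
                      gcongr
                  _ = 2 ^ ((w0 ν + Lg ν) * (C * (d ν k + r ν k))) := by
                      rw [← pow_add, ← pow_mul]
                  _ ≤ 2 ^ W ν := by
                      refine pow_le_pow_right₀ (by norm_num) ?_
                      rw [hW]
                      omega
              · have h6 := code_sum Q (u ν k) (v ν k) (r ν k) (d ν k) Finset.univ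
                have h7 := code_sum Q (u ν k) (v ν k) (r ν k) (d ν k) B
                rw [h6, ← h4.2.2.zsum, ← hBZ, ← h7] at q4
                refine Eq.trans ?_ q4
                congr 2
                exact hsum fun i => ((v ν k ^ (r ν k - 1) * u ν k i : ℤ) : ℂ) *
                  (vl Q.α (Q.vs i) * vl Q.α (Q.vb i) ^ d ν k)
        · refine hc0 Y hY (Fin q → Key1 m) A' hbig' κ C B.card (fun ν x p => b ν x k (e p).1)
            (fun ν x p => s ν x k (e p).1) (fun ν => d ν k) w0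
            (fun ν p => u ν k (e p).1) (hdf k) hw0F (hdl k) ?_ ?_
          · filter_upwards [hun] with ν k1 p
            exact ⟨k1 _ (e p).2, (hu ν k (e p).1).trans (hUb ν)⟩
          · filter_upwards [hA', hs, hbb] with ν k1 k2 k3 x hx
            have h4 := k2 x (k1 hx) k
            obtain ⟨-, b2, b3⟩ := h4.2.2.blk B hBP
            refine ⟨fun p => ⟨k3 x hx _ (e p).2, h4.1.s0 _⟩, ?_, fun J hJn hJu => ?_, ?_⟩
            · exact (hsum (tC (u ν k) (d ν k) (s ν x k) (b ν x k))).trans b2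
            · have h5 := hJ J (tC (u ν k) (d ν k) (s ν x k) (b ν x k))
              have h6 : ∑ p ∈ J, tC (u ν k) (d ν k) (s ν x k) (b ν x k) (e p).1 ≠ 0 := by
                rw [h5]
                refine b3 _ (hJB J) (hJn.map) fun h7 => hJu ?_
                rw [Finset.eq_univ_iff_forall]
                intro p
                have h8 : (e p).1 ∈ J.map (e.toEmbedding.trans
                  (Function.Embedding.subtype _)) := by
                  rw [h7]
                  exact (e p).2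
                obtain ⟨p', hp', hpe⟩ := Finset.mem_map.1 h8
                have h9 : e p' = e p := Subtype.ext hpe
                rwa [e.injective h9] at hp'
              exact h6
            · obtain ⟨Q, -⟩ := h4.1.cod
              exact ⟨resCode Q (fun p => (e p).1)⟩
      obtain ⟨A'', h1, h2, h3⟩ := hex
      refine ⟨A'', h1, h2, hfin A'' h1 ?_⟩
      have h4 := h3 (e.symm ⟨j, hj1⟩) (e.symm ⟨j', hj2⟩)
      simp only [Equiv.apply_symm_apply] at h4
      exact h4)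
  -- the end
  have g3' : ∀ᶠ ν in (Uf : Filter ℕ), ∀ p ∈ ((Finset.univ : Finset (Fin q × Finset (Fin m) ×
      Fin m × Fin m)).filter fun p => p.2.1 ∈ insert (ZP p.1).1 (ZP p.1).2 ∧ p.2.2.1 ∈ p.2.1 ∧
        p.2.2.2 ∈ p.2.1), ∀ x ∈ A1 ν, ∀ x' ∈ A1 ν,
      b ν x p.1 p.2.2.1 / b ν x p.1 p.2.2.2 = b ν x' p.1 p.2.2.1 / b ν x' p.1 p.2.2.2 := by
    rw [Filter.eventually_all_finset]
    exact g3
  obtain ⟨ν, k1, k2, k3, k4⟩ := (g1.and (g3'.and (g2.one_lt.and hs))).exists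
  obtain ⟨x, hx, y, hy, hxy⟩ := Finset.one_lt_card.1 k3
  apply hxy
  funext k
  rw [(k4 x (k1 hx) k).2.1, (k4 y (k1 hy) k).2.1]
  congr 1
  funext i i'
  unfold ratiosC
  by_cases hii : ∃ B ∈ insert (ZP k).1 (ZP k).2, i ∈ B ∧ i' ∈ B
  · rw [if_pos hii, if_pos hii]
    obtain ⟨B, hB, hi, hi'⟩ := hii
    exact k2 (k, B, i, i') (Finset.mem_filter.2 ⟨Finset.mem_univ _, hB, hi, hi'⟩) x hx y hy
  · rw [if_neg hii, if_neg hii]

end Pool.Agent.N814.HC
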