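import Mathlib
import Pool.Agent.N814.HC.CovA

/-!
# Linear sections for all number fields of bounded degree

Project HC (helper741), proof by helper814; adapted from `Pool.Agent.N741.HB.CovZ2`. The main theorem
is `covA : S_sol → S_cstP → S_cst0 → S_covA`.
-/

set_option autoImplicit false

namespace Pool.Agent.N814.HC

open Filter Pool.Agent.Y902.GN Pool.Agent.N741.HB Pool.Agent.N741.HC

theorem linC_add {n : ℕ} (h : Fin n → ℤ) (a b : Fin n → ℂ) :
    linC h (a + b) = linC h a + linC h b := by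
  unfold linC
  rw [← Finset.sum_add_distrib]
  exact Finset.sum_congr rfl fun j _ => by rw [Pi.add_apply]; ring

theorem linC_smul {n : ℕ} (h : Fin n → ℤ) (c : ℂ) (a : Fin n → ℂ) :
    linC h (c • a) = c * linC h a := by
  unfold linC
  rw [Finset.mul_sum]
  exact Finset.sum_congr rfl fun j _ => by rw [Pi.smul_apply, smul_eq_mul]; ring

theorem linC_zero {n : ℕ} (h : Fin n → ℤ) : linC h 0 = 0 := by
  unfold linC
  exact Finset.sum_eq_zero fun j _ => by rw [Pi.zero_apply, mul_zero]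

/-- the subspace of a key (one equation) -/
noncomputable def keySubC {n m : ℕ} (u : Fin m → ℤ) (h : Fin m → Fin n → ℤ) (key : Key1 m) :
    Submodule ℂ (Fin n → ℂ) where
  carrier := {y | (∀ B ∈ insert key.1.1 key.1.2, ∀ i ∈ B, ∀ i' ∈ B,
      linC (h i) y = key.2 i i' * linC (h i') y) ∧
    ∀ i, i ∉ (insert key.1.1 key.1.2).biUnion id → u i ≠ 0 → linC (h i) y = 0}
  zero_mem' := by
    refine ⟨fun B _ i _ i' _ => ?_, fun i _ _ => ?_⟩
    · rw [linC_zero, linC_zero, mul_zero]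
    · rw [linC_zero]
  add_mem' := by
    rintro a b ⟨ha, ha'⟩ ⟨hb, hb'⟩
    refine ⟨fun B hB i hi i' hi' => ?_, fun i hi hu => ?_⟩
    · rw [linC_add, linC_add, ha B hB i hi i' hi', hb B hB i hi i' hi']
      ring
    · rw [linC_add, ha' i hi hu, hb' i hi hu, add_zero]
  smul_mem' := by
    rintro c a ⟨ha, ha'⟩
    refine ⟨fun B hB i hi i' hi' => ?_, fun i hi hu => ?_⟩
    · rw [linC_smul, linC_smul, ha B hB i hi i' hi']
      ring
    · rw [linC_smul, ha' i hi hu, mul_zero]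

theorem PatC.b_ne {m : ℕ} {u : Fin m → ℤ} {d : ℕ} {s b : Fin m → ℂ} {Z : Finset (Fin m)}
    {P : Finset (Finset (Fin m))} (H : PatC (tC u d s b) Z P) (hd : d ≠ 0) {B : Finset (Fin m)}
    (hB : B ∈ insert Z P) {i : Fin m} (hi : i ∈ B) : b i ≠ 0 := by
  have h1 : tC u d s b i ≠ 0 := by
    refine (H.un i).1 ?_
    rcases Finset.mem_insert.1 hB with h3 | h3
    · left; rw [← h3]; exact hi
    · right; exact Finset.mem_biUnion.2 ⟨B, h3, hi⟩
  intro h2
  apply h1
  rw [tC, h2, zero_pow hd, mul_zero, mul_zero]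

theorem PatC.mem {n m : ℕ} {u : Fin m → ℤ} {h : Fin m → Fin n → ℤ} {d : ℕ} {s b : Fin m → ℂ}
    {Z : Finset (Fin m)} {P : Finset (Finset (Fin m))} (H : PatC (tC u d s b) Z P)
    (hd : d ≠ 0) (hs : ∀ i, s i ≠ 0) {y : Fin n → ℂ} (hy : ∀ i, linC (h i) y = b i) :
    y ∈ keySubC u h ((Z, P), ratiosC (insert Z P) b) := by
  classical
  refine ⟨fun B hB i hi i' hi' => ?_, fun i hi hu => ?_⟩
  · show linC (h i) _ = ratiosC (insert Z P) b i i' * linC (h i') _
    unfold ratiosC
    rw [if_pos ⟨B, hB, hi, hi'⟩, hy, hy]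
    have hne' := H.b_ne hd hB hi'
    field_simp
  · rw [hy]
    by_contra hcon
    apply hi
    have h1 := (H.un i).2 (mul_ne_zero (by exact_mod_cast hu) (mul_ne_zero (hs i)
      (pow_ne_zero _ hcon)))
    rw [Finset.biUnion_insert, Finset.mem_union]
    exact h1

/-- on the subspace of the key the form is proportional to a power of a linear form -/
theorem PatC.form {n m : ℕ} {u : Fin m → ℤ} {h : Fin m → Fin n → ℤ} {d : ℕ} {s b : Fin m → ℂ}
    {Z : Finset (Fin m)} {P : Finset (Finset (Fin m))} (H : PatC (tC u d s b) Z P)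
    (hd : d ≠ 0) : (Z = ∅ ∧ ∀ y ∈ keySubC u h ((Z, P), ratiosC (insert Z P) b),
        ∑ i, (u i : ℂ) * (s i * linC (h i) y ^ d) = 0) ∨
      ∃ i0 ∈ Z, ∀ y ∈ keySubC u h ((Z, P), ratiosC (insert Z P) b),
        ∑ i, (u i : ℂ) * (s i * linC (h i) y ^ d) =
          (∑ i, tC u d s b i) * (linC (h i0) y / b i0) ^ d := by
  classical
  have hblk : ∀ B ∈ insert Z P, ∀ i0 ∈ B, ∀ y ∈ keySubC u h ((Z, P), ratiosC (insert Z P) b),
      ∑ i ∈ B, (u i : ℂ) * (s i * linC (h i) y ^ d) =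
      (∑ i ∈ B, tC u d s b i) * (linC (h i0) y / b i0) ^ d := by
    intro B hB i0 hi0 y hy
    rw [Finset.sum_mul]
    refine Finset.sum_congr rfl fun i hi => ?_
    have e2 := hy.1 B hB i hi i0 hi0
    have e3 : (((Z, P), ratiosC (insert Z P) b) : Key1 m).2 i i0 = b i / b i0 := by
      show ratiosC (insert Z P) b i i0 = _
      unfold ratiosC
      rw [if_pos ⟨B, hB, hi, hi0⟩]
    rw [e2, e3, tC]
    rw [div_pow, mul_pow, div_pow]
    ring
  have hzero : ∀ y ∈ keySubC u h ((Z, P), ratiosC (insert Z P) b), ∀ B ∈ P,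
      ∑ i ∈ B, (u i : ℂ) * (s i * linC (h i) y ^ d) = 0 := by
    intro y hy B hB
    obtain ⟨⟨i0, hi0⟩, hB2, -⟩ := H.blk B hB
    rw [hblk B (Finset.mem_insert_of_mem hB) i0 hi0 y hy, hB2, zero_mul]
  have hall : ∀ y ∈ keySubC u h ((Z, P), ratiosC (insert Z P) b),
      ∑ i, (u i : ℂ) * (s i * linC (h i) y ^ d) =
        ∑ i ∈ Z, (u i : ℂ) * (s i * linC (h i) y ^ d) := by
    intro y hy
    rw [← Finset.sum_subset (Finset.subset_univ (Z ∪ P.biUnion id)) (fun i _ hi => ?_)]
    · rw [Finset.sum_union H.disZ, Finset.sum_biUnion H.dis]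
      have e1 : ∑ B ∈ P, ∑ i ∈ id B, (u i : ℂ) * (s i * linC (h i) y ^ d) = 0 :=
        Finset.sum_eq_zero fun B hB => hzero y hy B hB
      rw [e1, add_zero]
    · by_cases hu : u i = 0
      · rw [hu, Int.cast_zero, zero_mul]
      · rw [hy.2 i (by rw [Finset.biUnion_insert]; exact hi) hu, zero_pow hd, mul_zero, mul_zero]
  rcases Finset.eq_empty_or_nonempty Z with hZ | ⟨i0, hi0⟩
  · left
    refine ⟨hZ, fun y hy => ?_⟩
    rw [hall y hy, hZ, Finset.sum_empty]
  · right
    refine ⟨i0, hi0, fun y hy => ?_⟩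
    rw [hall y hy, hblk Z (Finset.mem_insert_self _ _) i0 hi0 y hy, H.zsum]

/-- the subspace of the keys -/
noncomputable def keyAll {n m q : ℕ} (u : Fin q → Fin m → ℤ) (h : Fin q → Fin m → Fin n → ℤ)
    (key : Fin q → Key1 m) : Submodule ℂ (Fin n → ℂ) :=
  ⨅ k, keySubC (u k) (h k) (key k)

/-- **Few linear sections.** -/
theorem covA (h1 : S_sol) (h2 : S_cstP) (h3 : S_cst0) : S_covA := by
  classical
  intro n m q E κ ε hε
  obtain ⟨C, hC⟩ := h1 n m κ E
  obtain ⟨R, δ, hδ, H⟩ := covkC h2 h3 m q κ C ε hε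
  refine ⟨R + 1, δ, hδ, fun Y hY r w hrw u v hu hv h hh => ?_⟩
  have hd0 : ∀ k, r k * w k ≠ 0 := fun k => by
    have h1 := (hrw k).1
    have h2 := (hrw k).2.1
    exact mul_ne_zero (by omega) (by omega)
  have hrd : ∀ k, r k ≤ r k * w k := fun k => Nat.le_mul_of_pos_right _ (hrw k).2.1
  obtain ⟨U, hUd⟩ : ∃ U : ℕ, U = ⌊Real.exp ((Y : ℝ) ^ δ)⌋₊ := ⟨_, rfl⟩
  have hU : (U : ℝ) ≤ Real.exp ((Y : ℝ) ^ δ) := by
    rw [hUd]
    exact Nat.floor_le (Real.exp_pos _).le
  have hU1 : 1 ≤ U := by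
    rw [hUd]
    apply Nat.le_floor
    rw [Nat.cast_one]
    exact Real.one_le_exp (by positivity)
  have hint : ∀ a : ℤ, ((|a| : ℤ) : ℝ) ≤ Real.exp ((Y : ℝ) ^ δ) → |a| ≤ (U : ℤ) := by
    intro a ha
    have h4 : a.natAbs ≤ U := by
      rw [hUd]
      apply Nat.le_floor
      rw [Nat.cast_natAbs]
      exact ha
    rw [Int.abs_eq_natAbs]
    exact_mod_cast h4
  have hu' : ∀ k i, |u k i| ≤ (U : ℤ) := fun k i => hint _ (hu k i)
  have hv' : ∀ k, |v k| ≤ (U : ℤ) := fun k => hint _ (hv k)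
  obtain ⟨f1, f2⟩ := fin_of_bound {key : Fin q → Key1 m | ∃ (b s : Fin q → Fin m → ℂ), ∀ k,
      SolC κ C Y m U (r k * w k) (r k) (u k) (v k) (key k) (b k) (s k)} ((Y : ℝ) ^ ε)
    fun T hT => H Y hY (fun k => r k * w k) r
      (fun k => ⟨by have := (hrw k).1; have := hrd k; omega, (hrw k).2.2⟩)
      (fun k => ⟨by have := (hrw k).1; omega, le_trans (by exact_mod_cast hrd k) (hrw k).2.2⟩)
      U hU u v hu' hv' T hT
  refine ⟨f1.toFinset.image (keyAll u h), ?_, ?_⟩
  · rw [Set.ncard_eq_toFinset_card _ f1] at f2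
    refine le_trans ?_ f2
    exact_mod_cast Finset.card_image_le
  · intro K _ _ σ hK x s s0 z hx hxh hs hs0 hz
    obtain ⟨b, hb⟩ : ∃ b : Fin q → Fin m → ℂ, ∀ k i, b k i = σ (∑ j, (h k i j : K) * x j) :=
      ⟨_, fun _ _ => rfl⟩
    obtain ⟨t, ht⟩ : ∃ t : Fin q → Fin m → ℂ, ∀ k i, t k i = σ (s k i) := ⟨_, fun _ _ => rfl⟩
    have ht0 : ∀ k i, t k i ≠ 0 := fun k i => by
      rw [ht]
      exact (map_ne_zero σ).2 (hs k i).1
    have hlin : ∀ k i, linC (h k i) (fun j => σ (x j)) = b k i := by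
      intro k i
      rw [hb, linC, map_sum]
      exact Finset.sum_congr rfl fun j _ => by rw [map_mul, map_intCast]
    have hsum : ∀ k, (v k : ℂ) * σ (s0 k) * σ (z k) ^ r k =
        ∑ i, tC (u k) (r k * w k) (t k) (b k) i := by
      intro k
      have h4 := congrArg σ (hz k).1
      rw [map_mul, map_mul, map_pow, map_intCast, map_sum] at h4
      rw [h4]
      refine Finset.sum_congr rfl fun i _ => ?_
      rw [tC, map_mul, map_mul, map_pow, map_intCast, ← ht, ← hb]
    choose Z P hP using fun k => PatC.ex (tC (u k) (r k * w k) (t k) (b k))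
    obtain ⟨key, hkey⟩ : ∃ key : Fin q → Key1 m, ∀ k, key k =
        ((Z k, P k), ratiosC (insert (Z k) (P k)) (b k)) := ⟨_, fun _ => rfl⟩
    have hbσ : ∀ k, b k = fun i => σ (∑ j, (h k i j : K) * x j) := fun k => funext (hb k)
    have htσ : ∀ k, t k = fun i => σ (s k i) := fun k => funext (ht k)
    have hkm : key ∈ f1.toFinset := by
      refine f1.mem_toFinset.2 ⟨b, t, fun k => ?_⟩
      have hr1 : 1 ≤ r k := by have := (hrw k).1; omega
      refine ⟨ht0 k, ?_, ?_, fun hv0 => ?_, ?_⟩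
      · rw [hkey]; exact hP k
      · rw [hkey]
      · rw [← hsum, (hz k).2 hv0, map_zero, zero_pow (by omega), mul_zero]
      · rw [hbσ, htσ]
        exact hC K σ Y x (s k) (s0 k) (z k) (u k) (v k) (h k) (r k) (w k) U hK hY hx hxh (hs k)
          (hs0 k).1 (hs0 k).2 (hh k) (hu' k) (hv' k) hU1 hr1 (hz k).1
    refine ⟨keyAll u h key, Finset.mem_image_of_mem _ hkm, ?_, ?_⟩
    · unfold keyAll
      rw [Submodule.mem_iInf]
      intro k
      rw [hkey]
      exact (hP k).mem (hd0 k) (ht0 k) (hlin k)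
    · have hl : ∀ k, ∃ (l : Fin n → ℤ) (c : K), z k = c * (∑ j, (l j : K) * x j) ^ w k ∧
          ∀ y ∈ keySubC (u k) (h k) (key k),
            (v k : ℂ) * σ (s0 k) * (σ c * linC l y ^ w k) ^ r k =
              ∑ i, (u k i : ℂ) * (σ (s k i) * linC (h k i) y ^ (r k * w k)) ∧
            (v k = 0 → σ c * linC l y ^ w k = 0) := by
        intro k
        have hr0 : r k ≠ 0 := fun h0 => hd0 k (by rw [h0, zero_mul])
        simp only [← ht]
        rw [hkey]
        rcases (hP k).form (h := h k) (hd0 k) with ⟨hZ0, hF⟩ | ⟨i0, hi0, hF⟩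
        · have hF0 : ∑ i, tC (u k) (r k * w k) (t k) (b k) i = 0 := by
            rw [← (hP k).zsum, hZ0, Finset.sum_empty]
          have hz0 : z k = 0 := by
            by_cases hv0 : v k = 0
            · exact (hz k).2 hv0
            · have h3 := hsum k
              rw [hF0] at h3
              rcases mul_eq_zero.1 h3 with h4 | h4
              · rcases mul_eq_zero.1 h4 with h5 | h5
                · exact absurd (by exact_mod_cast h5) hv0
                · exact absurd ((map_eq_zero σ).1 h5) (hs0 k).1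
              · exact (map_eq_zero σ).1 ((pow_eq_zero_iff hr0).1 h4)
          refine ⟨0, 0, by rw [hz0, zero_mul], fun y hy => ⟨?_, fun _ => by
            rw [map_zero, zero_mul]⟩⟩
          rw [hF y hy, map_zero, zero_mul, zero_pow hr0, mul_zero]
        · have hl0 := (hP k).b_ne (hd0 k) (Finset.mem_insert_self _ _) hi0
          have hl1 : (∑ j, (h k i0 j : K) * x j) ≠ 0 := by
            intro h0
            apply hl0
            rw [hb, h0, map_zero]
          refine ⟨h k i0, z k / (∑ j, (h k i0 j : K) * x j) ^ w k, ?_, fun y hy =>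
            ⟨?_, fun hv0 => ?_⟩⟩
          · rw [div_mul_cancel₀ _ (pow_ne_zero _ hl1)]
          · rw [hF y hy, ← hsum k, map_div₀, map_pow, ← hb]
            rw [mul_comm (r k) (w k), pow_mul, div_pow (linC (h k i0) y)]
            rw [mul_assoc ((v k : ℂ) * σ (s0 k)), ← mul_pow]
            congr 2
            ring
          · rw [(hz k).2 hv0, zero_div, map_zero, zero_mul]
      choose l c hlc1 hlc2 using hl
      refine ⟨l, c, hlc1, fun y hy k => ?_⟩
      unfold keyAll at hy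
      rw [Submodule.mem_iInf] at hy
      exact hlc2 k y (hy k)

end Pool.Agent.N814.HC
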